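import Mathlib
import Pool.Agent.Run7.h546.AC.Fin

/-!
# No exotic Tate classes in codimension below `g ^ (1 - δ)`, for almost all CM types of abelian CM
fields

Let `E i` be finitely many CM fields, abelian over `ℚ`, of degrees `2 n i`, that are pairwise
independent: for `i ≠ k` and all complex embeddings `φ` of `E i` and `ψ` of `E k` some automorphism
of `ℂ` is the identity on `φ (E i)` and the complex conjugation on `ψ (E k)` (this is no condition for
one field). There are `2 ^ (∑ i, n i)` families `Φ` of CM types `Φ i` of the fields `E i`.

Let `A` be an abelian variety over the algebraic closure of a field finitely generated over `ℚ` which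
is isogenous to a product `X = ∏ j, A (t j)` of copies (in any number) of the abelian varieties
`A i` of CM type `(E i, Φ i)`; it has a model over a number field. Let `V = V_ℓ(A) = ℚ_ℓ ⊗ H_1(X, ℚ)`
be the rational Tate module, with the action `ρ` of the Galois group `G` and the cyclotomic character
`χ`, and let `γ ∈ G` be the Frobenius element of one place of good reduction above a prime number
`p ≠ ℓ` that splits completely in the fields `E i`. It acts by the multiplication by
`π ∈ ∏ E (t j)`, with absolute values given by the theorem of Shimura and Taniyama (`IsFrobeniusAt`).

`TateUpTo Φ k` says: for all products `X` of copies of the `A i`, all such data, and all `m` with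
`2 m ≤ k`, the Tate classes in `H^{2m}(A, ℚ_ℓ(m))` (fixed by an open subgroup, that is, by a subgroup
of finite index of `G`) are linear combinations, with coefficients in `ℚ_ℓ`, of products of `m`
Hodge classes of degree two, that is, of classes of divisors. So there are no exotic Tate
classes on `A` in codimension at most `k / 2`, and all Tate classes in these codimensions are
algebraic.

The theorem: for every `δ` between `0` and `1` there is a constant `C` such that, if all degrees are
at least `2 g`, the proportion of the families `Φ` for which `TateUpTo Φ ⌊g ^ (1 - δ)⌋` does not hold
is at most `C g ^ (-δ)` multiplied by the number of the fields. The constant does not depend on the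
fields.

For the abelian CM fields of degree `2 g` with at least `√g` imaginary quadratic subfields (for
instance the multiquadratic ones) it is not true that almost all CM types are nondegenerate, and so
there are exotic Tate classes on the powers of many of these abelian varieties; they are in
codimensions larger than `g ^ (1 - δ) / 2`.

The proof. Let `Γ` be the Galois group of `E`, of order `2 g`, and `u` the sign function of a CM
type on `Γ`. An exotic Tate class in codimension `m` gives an odd function `r ≠ 0` on `Γ` with
integral values and at most `4 m` nonzero values that is orthogonal to the translates of `u`, so that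
its Fourier transform is concentrated on the set `Z` of the odd characters that are orthogonal to
`u`. If every nontrivial character is the quotient of at most `R` pairs of characters in `Z`, then
the comparison of the second and the fourth moment of `r` shows that `r` has at least
`2 g / (1 + R)` nonzero values. For almost all types the set `Z` contains few characters of order
larger than two; and for fixed `t` and a given character `ψ` the expected number of the sets of `t`
pairs of quadratic characters in `Z` with quotient `ψ` is bounded, since `2 t` different
quadratic characters are orthogonal to `u` with probability at most `(4 ^ t / (2 g)) ^ t`.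
-/

namespace Pool.Agent.Results.MP_640417_ag.AlmostLinearCodimension

open NumberField Module Pool.Agent.H204R3.CM Pool.Agent.H977R3.CM Pool.Agent.TH170.TT

/-- **No exotic Tate classes in codimension below `g ^ (1 - δ)` for almost all families of CM types
of pairwise independent abelian CM fields.** -/
theorem result (δ : ℝ) (hδ : 0 < δ) (hδ1 : δ < 1) :
    ∃ C : ℝ, ∀ {ι : Type} [Fintype ι] (E : ι → Type) [∀ i, Field (E i)]
      [∀ i, NumberField (E i)] [∀ i, IsCMField (E i)] [∀ i, IsAbelianGalois ℚ (E i)]
      (g : ℕ) (n : ι → ℕ), PairwiseIndep E → (∀ i, finrank ℚ (E i) = 2 * n i) →
      0 < g → (∀ i, g ≤ n i) →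
      {Φ : ∀ i, Set (E i →+* ℂ) | ∀ i, IsCMType (Φ i)}.ncard = 2 ^ (∑ i, n i) ∧
      ({Φ : ∀ i, Set (E i →+* ℂ) | (∀ i, IsCMType (Φ i)) ∧
        ¬ TateUpTo Φ ⌊(g : ℝ) ^ (1 - δ)⌋₊}.ncard : ℝ) ≤
        2 ^ (∑ i, n i) * (Fintype.card ι * (C * (g : ℝ) ^ (-δ))) :=
  Pool.Agent.Run7.h546.AC.exists_family_rate δ hδ hδ1 (fun Φ k => TateUpTo Φ k)
    (fun _ _ _ h => tateUpTo_of_levelFree h)

end Pool.Agent.Results.MP_640417_ag.AlmostLinearCodimension
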